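import Pool.Agent.H29.BH.Targets1

/-!
# The kernel of the unfolding
-/

set_option autoImplicit false

open MeasureTheory Set Filter Complex
open scoped ENNReal

namespace Pool.Agent.H34.BH

open Pool.Agent.H29.BH
open Pool.Agent.H29.DW (dg Rl)

private def pS (w : ℂ) : Set ℂ := {p | 1 ≤ ‖p‖ ∧ ‖p‖ ≤ 2 ∧ ‖w - p‖ ≤ 1 / 8}

private lemma pk_eq (r : Bool) (w : ℂ) : pk r w = mz r (pS w) := rfl

private lemma pS_meas (w : ℂ) : MeasurableSet (pS w) := by
  refine MeasurableSet.inter ?_ (MeasurableSet.inter ?_ ?_)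
  · exact measurableSet_le measurable_const measurable_norm
  · exact measurableSet_le measurable_norm measurable_const
  · exact measurableSet_le (measurable_const.sub measurable_id).norm measurable_const

private lemma mz_false (S : Set ℂ) : mz false S = volume S := by
  unfold mz
  simp only [Bool.false_eq_true, if_false]

private lemma mz_true {S : Set ℂ} (hS : MeasurableSet S) :
    mz true S = volume {x : ℝ | (x : ℂ) ∈ S} := by
  unfold mz
  simp only [if_true]
  exact Measure.map_apply Complex.measurable_ofReal hS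

private lemma pk_meas (r : Bool) : Measurable (pk r) := by
  have h : MeasurableSet {q : ℂ × ℂ | 1 ≤ ‖q.2‖ ∧ ‖q.2‖ ≤ 2 ∧ ‖q.1 - q.2‖ ≤ 1 / 8} := by
    refine MeasurableSet.inter ?_ (MeasurableSet.inter ?_ ?_)
    · exact measurableSet_le measurable_const measurable_snd.norm
    · exact measurableSet_le measurable_snd.norm measurable_const
    · exact measurableSet_le (measurable_fst.sub measurable_snd).norm measurable_const
  exact measurable_measure_prodMk_left (ν := mz r) h

private lemma pk_le (r : Bool) (w : ℂ) : pk r w ≤ 1 := by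
  rw [pk_eq]
  cases r
  · rw [mz_false]
    have h1 : pS w ⊆ Metric.closedBall w (1 / 8) := by
      intro p hp
      rw [Metric.mem_closedBall, dist_comm, dist_eq_norm]
      exact hp.2.2
    refine (measure_mono h1).trans ?_
    rw [Complex.volume_closedBall]
    have h2 : ENNReal.ofReal (1 / 8) ^ 2 * (NNReal.pi : ℝ≥0∞) =
        ENNReal.ofReal ((1 / 8) ^ 2 * Real.pi) := by
      rw [ENNReal.ofReal_mul (by positivity), ENNReal.ofReal_pow (by norm_num)]
      congr 1
      rw [← NNReal.coe_real_pi, ENNReal.ofReal_coe_nnreal]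
    rw [h2, ← ENNReal.ofReal_one]
    refine ENNReal.ofReal_le_ofReal ?_
    have := Real.pi_le_four
    linarith
  · rw [mz_true (pS_meas w)]
    have h1 : {x : ℝ | (x : ℂ) ∈ pS w} ⊆ Metric.closedBall w.re (1 / 8) := by
      intro x hx
      rw [Metric.mem_closedBall, dist_comm, Real.dist_eq]
      have h2 : |(w - (x : ℂ)).re| ≤ ‖w - (x : ℂ)‖ := Complex.abs_re_le_norm _
      rw [Complex.sub_re, Complex.ofReal_re] at h2
      exact h2.trans hx.2.2
    refine (measure_mono h1).trans ?_
    rw [Real.volume_closedBall, ← ENNReal.ofReal_one]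
    exact ENNReal.ofReal_le_ofReal (by norm_num)

private lemma pk_ne (r : Bool) (w : ℂ) (h : pk r w ≠ 0) : 7 / 8 ≤ ‖w‖ ∧ ‖w‖ ≤ 17 / 8 := by
  obtain ⟨p, hp1, hp2, hp3⟩ := nonempty_of_measure_ne_zero h
  have h1 := norm_sub_norm_le w p
  have h2 := norm_sub_norm_le p w
  rw [norm_sub_rev p w] at h2
  constructor <;> linarith

private lemma pS_rot {θ : ℂ} (hθ : ‖θ‖ = 1) (w p : ℂ) : θ * p ∈ pS (θ * w) ↔ p ∈ pS w := by
  unfold pS
  simp only [mem_ofPred_eq]
  rw [← mul_sub, norm_mul, norm_mul, hθ, one_mul, one_mul]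

private lemma pk_rot (r : Bool) (θ w : ℂ) (hr : Rl r θ) (hθ : ‖θ‖ = 1) :
    pk r (θ * w) = pk r w := by
  rw [pk_eq, pk_eq]
  cases r
  · rw [mz_false, mz_false]
    let a : Circle := ⟨θ, mem_sphere_zero_iff_norm.2 hθ⟩
    have h1 := (rotation a).measurePreserving
    have h2 : pS w = (rotation a) ⁻¹' (pS (θ * w)) := by
      ext p
      rw [mem_preimage, rotation_apply]
      exact (pS_rot hθ w p).symm
    rw [h2, h1.measure_preimage (pS_meas _).nullMeasurableSet]
  · rw [mz_true (pS_meas _), mz_true (pS_meas _)]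
    have him : θ.im = 0 := hr rfl
    have h3 : θ = ((θ.re : ℝ) : ℂ) := by
      apply Complex.ext
      · rw [Complex.ofReal_re]
      · rw [Complex.ofReal_im, him]
    have h4 : |θ.re| = 1 := by
      rw [h3, Complex.norm_real, Real.norm_eq_abs] at hθ
      exact hθ
    rcases (abs_eq (zero_le_one)).1 h4 with h5 | h5
    · rw [h3, h5, Complex.ofReal_one, one_mul]
    · have h6 : {x : ℝ | (x : ℂ) ∈ pS w} = Neg.neg ⁻¹' {x : ℝ | (x : ℂ) ∈ pS (θ * w)} := by
        ext x
        rw [mem_preimage, mem_ofPred_eq, mem_ofPred_eq, ← pS_rot hθ w]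
        have h7 : θ * (x : ℂ) = ((-x : ℝ) : ℂ) := by
          rw [h3, h5]
          push_cast
          ring
        rw [h7]
      rw [h6]
      exact (Measure.measure_preimage_neg volume _).symm

private lemma ball_ge (r : Bool) (p₀ : ℂ) (hp : Rl r p₀) :
    ENNReal.ofReal (1 / 10000) ≤ mz r (Metric.closedBall p₀ (1 / 100)) := by
  cases r
  · rw [mz_false, Complex.volume_closedBall]
    have h2 : ENNReal.ofReal (1 / 100) ^ 2 * (NNReal.pi : ℝ≥0∞) =
        ENNReal.ofReal ((1 / 100) ^ 2 * Real.pi) := by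
      rw [ENNReal.ofReal_mul (by positivity), ENNReal.ofReal_pow (by norm_num)]
      congr 1
      rw [← NNReal.coe_real_pi, ENNReal.ofReal_coe_nnreal]
    rw [h2]
    refine ENNReal.ofReal_le_ofReal ?_
    have := Real.pi_gt_three
    linarith
  · rw [mz_true Metric.isClosed_closedBall.measurableSet]
    have him : p₀.im = 0 := hp rfl
    have h1 : Metric.closedBall p₀.re (1 / 100) ⊆
        {x : ℝ | (x : ℂ) ∈ Metric.closedBall p₀ (1 / 100)} := by
      intro x hx
      rw [Metric.mem_closedBall, Real.dist_eq] at hx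
      rw [mem_ofPred_eq, Metric.mem_closedBall, dist_eq_norm]
      have h3 : (x : ℂ) - p₀ = ((x - p₀.re : ℝ) : ℂ) := by
        apply Complex.ext
        · rw [Complex.sub_re, Complex.ofReal_re, Complex.ofReal_re]
        · rw [Complex.sub_im, Complex.ofReal_im, Complex.ofReal_im, him, sub_zero]
      rw [h3, Complex.norm_real, Real.norm_eq_abs]
      exact hx
    refine le_trans ?_ (measure_mono h1)
    rw [Real.volume_closedBall]
    exact ENNReal.ofReal_le_ofReal (by norm_num)

private lemma pk_ge (r : Bool) (w : ℂ) (hw : Rl r w) (h1 : 19 / 20 ≤ ‖w‖) (h2 : ‖w‖ ≤ 21 / 20) :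
    ENNReal.ofReal (1 / 10000) ≤ pk r w := by
  rw [pk_eq]
  have hpos : 0 < ‖w‖ := by linarith
  set t : ℝ := 53 / 50 / ‖w‖ with ht
  have ht0 : 0 < t := by positivity
  have htw : t * ‖w‖ = 53 / 50 := by
    rw [ht]
    field_simp
  have hp : Rl r ((t : ℂ) * w) := by
    intro hr
    rw [Complex.im_ofReal_mul t w, hw hr, mul_zero]
  refine (ball_ge r ((t : ℂ) * w) hp).trans (measure_mono ?_)
  intro p hp
  rw [Metric.mem_closedBall, dist_eq_norm] at hp
  have h3 : ‖(t : ℂ) * w‖ = 53 / 50 := by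
    rw [norm_mul, Complex.norm_real, Real.norm_eq_abs, abs_of_pos ht0, htw]
  have h4 := norm_sub_norm_le p ((t : ℂ) * w)
  have h5 := norm_sub_norm_le ((t : ℂ) * w) p
  rw [norm_sub_rev] at h5
  have h6 : ‖w - (t : ℂ) * w‖ = |‖w‖ - 53 / 50| := by
    have e : w - (t : ℂ) * w = ((1 - t : ℝ) : ℂ) * w := by
      push_cast
      ring
    rw [e, norm_mul, Complex.norm_real, Real.norm_eq_abs, ← htw]
    have e2 : ‖w‖ - t * ‖w‖ = (1 - t) * ‖w‖ := by ring
    rw [e2, abs_mul, abs_of_pos hpos]
  have h7 : |‖w‖ - 53 / 50| ≤ 11 / 100 := by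
    rw [abs_le]
    constructor <;> linarith
  have h8 : ‖w - p‖ ≤ ‖w - (t : ℂ) * w‖ + ‖p - (t : ℂ) * w‖ := by
    have e : w - p = (w - (t : ℂ) * w) - (p - (t : ℂ) * w) := by ring
    rw [e]
    exact norm_sub_le _ _
  refine ⟨?_, ?_, ?_⟩
  · linarith
  · linarith
  · linarith

theorem pf_A_PK : A_PK :=
  ⟨pk_meas, pk_le, pk_ne, fun r θ w h1 _ h3 => pk_rot r θ w h1 h3, 1 / 10000, by norm_num, pk_ge⟩

end Pool.Agent.H34.BH
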