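import Pool.Agent.H29.BH.Targets1
import Pool.Agent.H59.BG.L1

/-!
# The complete sum modulo a prime
-/

set_option autoImplicit false

open NumberField

namespace Pool.Agent.H34.BH

open Pool.Agent.H29.BH
open Pool.Agent.H29.TC (LC)
open Pool.Agent.H23.BG (c4 Iso W_W4 Ac)
open Pool.Agent.H23.LB
open Pool.Agent.H59.BG.L1 (c4_le c4_iso Ac_ge)

private lemma f1_one_le {K : Type} [Field K] [NumberField K] {f J : Ideal (𝓞 K)} (hf : f ≠ ⊥)
    (h : f ≤ J) : 1 ≤ Nf K J := by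
  unfold Nf
  have hJ : J ≠ ⊥ := fun h0 => hf (le_bot_iff.1 (h0 ▸ h))
  have : 0 < Ideal.absNorm J := Nat.pos_of_ne_zero fun h => hJ (Ideal.absNorm_eq_zero_iff.1 h)
  exact_mod_cast this

private lemma f1_sup {K : Type} [Field K] [NumberField K] {f : Ideal (𝓞 K)} {x : 𝓞 K}
    (h : x ∈ f) : f ⊔ Ideal.span {x} = f :=
  sup_eq_left.2 ((Ideal.span_singleton_le_iff_mem f).2 h)

private lemma f1_arith (A q T G x : ℝ) (hA : 4 ≤ A) (hq : 1 ≤ q) (hx : 0 ≤ x) (hxq : x ≤ q)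
    (hT : 1 ≤ T) (hG : 1 ≤ G) (h : x ≤ 3 * Real.sqrt q ∨ q ≤ T ∨ q ≤ G) :
    Bd2 A q T G x := by
  refine ⟨hxq, ?_⟩
  have hq0 : 0 ≤ q := by linarith
  have hA2 : (4 : ℝ) ^ 2 ≤ A ^ 2 := pow_le_pow_left₀ (by norm_num) hA 2
  have hTG : 1 ≤ T * G := one_le_mul_of_one_le_of_one_le hT hG
  rcases h with h | h
  · have h5 : x ^ 2 ≤ (3 * Real.sqrt q) ^ 2 := pow_le_pow_left₀ hx h 2
    rw [mul_pow, Real.sq_sqrt hq0] at h5
    calc x ^ 2 ≤ 16 * q := by linarith
      _ ≤ A ^ 2 * q := mul_le_mul_of_nonneg_right (by linarith) hq0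
      _ ≤ A ^ 2 * q * (T * G) := le_mul_of_one_le_right (by positivity) hTG
  · have hqTG : q ≤ T * G := by
      rcases h with h | h
      · exact h.trans (le_mul_of_one_le_right (by linarith) hG)
      · exact h.trans (le_mul_of_one_le_left (by linarith) hT)
    calc x ^ 2 ≤ q ^ 2 := pow_le_pow_left₀ hx hxq 2
      _ = q * q := sq q
      _ ≤ A ^ 2 * q * q := by
          refine mul_le_mul_of_nonneg_right ?_ hq0
          exact le_mul_of_one_le_left hq0 (by linarith)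
      _ ≤ A ^ 2 * q * (T * G) := mul_le_mul_of_nonneg_left hqTG (by positivity)

private lemma f1_T {q t u v w : ℝ} (ht : 1 ≤ t) (hu : 1 ≤ u) (hv : 1 ≤ v) (hw : 1 ≤ w)
    (h : q = t ∨ q = u ∨ q = v ∨ q = w) : q ≤ t * u * v * w := by
  have h1 : 1 ≤ t * u := one_le_mul_of_one_le_of_one_le ht hu
  have h2 : 1 ≤ t * u * v := one_le_mul_of_one_le_of_one_le h1 hv
  have a1 : t ≤ t * u := le_mul_of_one_le_right (by linarith) hu
  have a2 : u ≤ t * u := le_mul_of_one_le_left (by linarith) ht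
  have a3 : t * u ≤ t * u * v := le_mul_of_one_le_right (by linarith) hv
  have a4 : v ≤ t * u * v := le_mul_of_one_le_left (by linarith) h1
  have a5 : t * u * v ≤ t * u * v * w := le_mul_of_one_le_right (by linarith) hw
  have a6 : w ≤ t * u * v * w := le_mul_of_one_le_left (by linarith) h2
  rcases h with h | h | h | h <;> linarith

theorem pf_F_1 (hW4 : W_W4) : F_1 := by
  intro n K _ _ hn P hPp hP _ η hη a
  have hmax : (P ^ 1).IsMaximal := by
    rw [pow_one]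
    exact hPp.isMaximal hP
  have hP1 : P ^ 1 ≠ ⊥ := by rwa [pow_one]
  have hfield : IsField (𝓞 K ⧸ P ^ 1) :=
    Ideal.Quotient.maximal_ideal_iff_isField_quotient _ |>.1 hmax
  have hcard : (Fintype.card (𝓞 K ⧸ P ^ 1) : ℝ) = Nf K (P ^ 1) := by
    unfold Nf
    rw [Ideal.absNorm_apply, Submodule.cardQuot_apply, Nat.card_eq_fintype_card]
  have hq : 1 ≤ Nf K (P ^ 1) := f1_one_le hP1 le_rfl
  have hb := c4_le η hη.mc (fun i => Ideal.Quotient.mk (P ^ 1) (a i))
  rw [hcard] at hb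
  have hN : ∀ i j : Fin 4, 1 ≤ Nf K (P ^ 1 ⊔ Ideal.span {a i - a j}) := fun i j =>
    f1_one_le hP1 le_sup_left
  have hG : 1 ≤ cG (P ^ 1) a := f1_one_le hP1 (le_sup_left.trans le_sup_left)
  have hT : 1 ≤ cT (P ^ 1) a := by
    unfold cT
    exact one_le_mul_of_one_le_of_one_le (one_le_mul_of_one_le_of_one_le
      (one_le_mul_of_one_le_of_one_le (hN 0 2) (hN 0 3)) (hN 1 2)) (hN 1 3)
  refine f1_arith _ _ _ _ _ (Ac_ge K n P) hq (norm_nonneg _) hb hT hG ?_
  by_cases hI : Iso (fun i => Ideal.Quotient.mk (P ^ 1) (a i))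
  · left
    have := c4_iso hW4 _ hfield η hη.mc hη.prim _ hI
    rwa [hcard] at this
  · right
    have hno : ∀ i, ∃ j, j ≠ i ∧ a i - a j ∈ P ^ 1 := by
      intro i
      unfold Iso at hI
      push Not at hI
      obtain ⟨j, hj, hji⟩ := hI i
      refine ⟨j, hj, ?_⟩
      first
        | exact Ideal.Quotient.eq.1 hji
        | exact Ideal.Quotient.eq.1 hji.symm
    have hsw : ∀ i j : Fin 4, a i - a j ∈ P ^ 1 → a j - a i ∈ P ^ 1 := fun i j h => by
      rw [← neg_sub]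
      exact (P ^ 1).neg_mem h
    have hEq : ∀ i j : Fin 4, a i - a j ∈ P ^ 1 →
        Nf K (P ^ 1) = Nf K (P ^ 1 ⊔ Ideal.span {a i - a j}) := fun i j h => by
      rw [f1_sup h]
    have hTq : ∀ i j : Fin 4, (i = 0 ∨ i = 1) → (j = 2 ∨ j = 3) → a i - a j ∈ P ^ 1 →
        Nf K (P ^ 1) ≤ cT (P ^ 1) a := by
      intro i j hi hj h
      have h1 := hEq i j h
      unfold cT
      refine f1_T (hN 0 2) (hN 0 3) (hN 1 2) (hN 1 3) ?_
      rcases hi with rfl | rfl <;> rcases hj with rfl | rfl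
      · exact Or.inl h1
      · exact Or.inr (Or.inl h1)
      · exact Or.inr (Or.inr (Or.inl h1))
      · exact Or.inr (Or.inr (Or.inr h1))
    obtain ⟨j, hj, h0⟩ := hno 0
    obtain ⟨k, hk, h2⟩ := hno 2
    have hj' : j = 1 ∨ j = 2 ∨ j = 3 := by
      fin_cases j
      · exact absurd rfl hj
      · exact Or.inl rfl
      · exact Or.inr (Or.inl rfl)
      · exact Or.inr (Or.inr rfl)
    have hk' : k = 0 ∨ k = 1 ∨ k = 3 := by
      fin_cases k
      · exact Or.inl rfl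
      · exact Or.inr (Or.inl rfl)
      · exact absurd rfl hk
      · exact Or.inr (Or.inr rfl)
    rcases hj' with rfl | rfl | rfl
    · rcases hk' with rfl | rfl | rfl
      · exact Or.inl (hTq 0 2 (Or.inl rfl) (Or.inl rfl) (hsw _ _ h2))
      · exact Or.inl (hTq 1 2 (Or.inr rfl) (Or.inl rfl) (hsw _ _ h2))
      · right
        unfold cG
        rw [f1_sup h0, f1_sup h2]
    · exact Or.inl (hTq 0 2 (Or.inl rfl) (Or.inl rfl) h0)
    · exact Or.inl (hTq 0 3 (Or.inl rfl) (Or.inr rfl) h0)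

end Pool.Agent.H34.BH
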